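import Pool.Agent.Helper53.DR.Final

/-!
# MP_78803a_an, Q1: how many values can be exceptional

`f` admissible, `Ψ` a non-constant admissible linear differential polynomial of order `l` in `f`.

* If `α(f) > l + 1/q`, then fewer than `q` nonzero values are taken only finitely often by `Ψ`. For `q = 1` this is property
  (V) for `α(f) > l + 1` (helper61's theorem `ThresholdUpper`, whose method is used here); for `l + 1/2 < α(f) ≤ l + 1` there is at
  most one exceptional value, and for every `α(f) > l` there are finitely many.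
* The second main theorem behind it: for all sets `W` of `q ≥ 1` nonzero values
  `q T(r,f) + (q-1) N(r,1/Ψ) ≤ (q l + 1) log 1/(1-r) + ∑_{w ∈ W} N̄(r,1/(Ψ-w)) + o(T(r,f) + log 1/(1-r))`.

Proof. With `V = W ∪ {0}` and `S = ∑_{v ∈ V} |Ψ'/(Ψ-v)|` one has `log |Ψ'| + ∑_{v ∈ V} log⁺ |1/(Ψ-v)| ≤ log⁺ S + log⁺ |Ψ| + C`,
because at most one `|Ψ-v|` is small. The `p`-th moments, `p < 1`, of `S` give `m(r,S) ≤ (1+ε) log 1/(1-r) + C`; Jensen's
formula for `Ψ'` and the first main theorem give `q m(r,1/Ψ) + (q-1) N(r,1/Ψ) ≤ (1+ε) log 1/(1-r) + ∑ N̄ + o(T(r,f))`; and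
`T(r,f) ≤ m(r,Ψ/f) + m(r,1/Ψ) + C` with `m(r,Ψ/f) ≤ l (1+ε) log 1/(1-r) + o(T(r,f))`.
-/

set_option autoImplicit false

open Filter Topology Metric Real Pool.Agent.Helper61.Nev Pool.Agent.Helper53.DR

namespace Pool.Agent.Results.MP_78803a_an.DefectRelation

/-- Fewer than `q` nonzero values are exceptional if `α(f) > l + 1/q`, and the second main theorem for `Ψ` and `f`. -/
theorem result (l : ℕ) (f : ℂ → ℂ) (hf : Admissible f) (a : ℕ → ℂ → ℂ)
    (ha : AdmissibleCoeffs l f a) (hΨ : ¬ ConstInDisc (diffPoly l a f)) :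
    (∀ q : ℕ, 1 ≤ q → ((l + 1 / q : ℝ) : EReal) < alpha f →
      {w : ℂ | w ≠ 0 ∧ {z : ℂ | z ∈ ball (0 : ℂ) 1 ∧
        0 < meromorphicOrderAt (fun ζ => diffPoly l a f ζ - w) z}.Finite}.encard < q) ∧
    ∀ W : Finset ℂ, W.Nonempty → (0 : ℂ) ∉ W → ∀ ε : ℝ, 0 < ε → ∀ᶠ r : ℝ in 𝓝[<] 1,
      W.card * charT f r + (W.card - 1) * countN (diffPoly l a f)⁻¹ r ≤
        (W.card * l + 1) * (-log (1 - r)) +
          ∑ w ∈ W, countZeros (fun z => diffPoly l a f z - w) r +
          ε * (charT f r + -log (1 - r)) :=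
  ⟨fun _ hq h => encard_lt hf ha hΨ hq h,
    fun W hW h0 _ hε => main_ineq hf ha hΨ W hW h0 hε⟩

end Pool.Agent.Results.MP_78803a_an.DefectRelation
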