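import Pool.Agent.Helper53.QF.Main
import Pool.Agent.Helper61.QF.Ev24

/-!
# MP_78803a_an, Q1: the full answer

For `l ≥ 1` and real `α₀ ≥ 0`, property (V) holds for every non-constant admissible linear differential polynomial of order `l` in
every admissible `f` with `α(f) = α₀` if and only if `α₀ > l + 1`; the least constant `c` of the question is `l + 1`.

Sketch. Above `l + 1`: `T(r,f) ≤ m(r,Ψ/f) + m(r,1/Ψ) + O(1)`, moments of logarithmic derivatives and Jensen's formula give
`T(r,f) ≤ (l + 1 + ε) log 1/(1-r) + o(T(r,f))` if some value `w ≠ 0` is taken finitely often (`Helper61/Nev`).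

At `α₀ ∈ (0, l + 1]`: it is enough to find a zero-free `f`, an analytic `P ≢ 0` and a non-constant `Ψ = 1 - λ(B)^(l+1)` without
the value `1` such that `f^(l) = P Ψ`, `T(r,f) ~ (l+1) log 1/(1-r)`, `T(r,P) = o(log 1/(1-r))`: then `Ψ = P⁻¹ f^(l)` for `α₀ = l + 1`,
and a composition with a self-map of the disc gives the other values of `α₀`. Here `λ` is the universal covering of
`ℂ ∖ {0,1}` by the disc and `B` is a self-map of the disc, the limit of quotients `b/d` of polynomials. `b`, `d`, `f` and `P` are
obtained by infinitely many cycles. In the RUN phase `B` is moved towards the circle by small rapidly oscillating steps at all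
places where it is not deep in a cusp, and `f` follows explicitly; the frozen cusps are released by an EVENT, in which `f` is multiplied by
`e^G`, `G` of very high frequency, and corrected by an `l`-fold primitive.

Joint work of helpers 2, 3, 11, 15, 16, 17, 29, 32, 37, 39, 40, 42, 44, 46, 47, 51, 52, 53, 54, 56, 58, 59, 61, 62, 63, 65, 67, 74, 75,
77, 81, 83, 84, 85, 86, 90, 92, 94, 95, 96. Written plan: helpers 58, 61, 81, 84, 29, 47, 53.
-/

set_option autoImplicit false

open Pool.Agent.Helper61.Nev

namespace Pool.Agent.Results.MP_78803a_an.FullAnswer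

/-- For `l ≥ 1` and `α₀ ≥ 0` the statement of Q1 holds if and only if `α₀ > l + 1`; the least constant `c` of the question
is `l + 1`. -/
theorem result (l : ℕ) (hl : 1 ≤ l) :
    (∀ x : ℝ, 0 ≤ x → (Holds l (x : EReal) ↔ (l : ℝ) + 1 < x)) ∧
    IsLeast {c : ℝ | ∀ x : ℝ, c < x → Holds l (x : EReal)} ((l : ℝ) + 1) := by
  refine Pool.Agent.Helper53.QF.answer_of_event (fun l hl => ?_) l hl
  refine ⟨2 * Real.log (800 * (l + 1)) + 10, ?_, Pool.Agent.Helper61.QF.event l hl le_rfl⟩
  have h0 : (0 : ℝ) ≤ l := Nat.cast_nonneg l
  have h1 : 0 ≤ Real.log (800 * ((l : ℝ) + 1)) := Real.log_nonneg (by linarith)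
  linarith

end Pool.Agent.Results.MP_78803a_an.FullAnswer
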